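import Pool.Agent.H865.CM.Main

/-!
# Closed images of metalindelöf spaces: open covers of size less than `ℵ_ω`

In ZFC, for a closed mapping `f : X → Y` (arbitrary fibres, no separation axioms) of a metalindelöf
space `X` onto `Y`, every open cover of `Y` of cardinality less than `ℵ_ω` has a point-countable
open refinement.
-/

set_option autoImplicit false

namespace Pool.Agent.Results.MP_e848aa_gt.ClosedSmallCovers

open Set Topology Cardinal

universe u

/-- A family of sets is point-countable if every point lies in at most countably many members. -/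
def PointCountable {X : Type u} (𝒱 : Set (Set X)) : Prop :=
  ∀ x : X, {V ∈ 𝒱 | x ∈ V}.Countable

/-- The family `𝒰` of subsets of `X` has a point-countable open refinement covering `X`. -/
def HasPointCountableOpenRefinement {X : Type u} [TopologicalSpace X] (𝒰 : Set (Set X)) : Prop :=
  ∃ 𝒱 : Set (Set X), (∀ V ∈ 𝒱, IsOpen V) ∧ ⋃₀ 𝒱 = Set.univ ∧ PointCountable 𝒱 ∧
    ∀ V ∈ 𝒱, ∃ U ∈ 𝒰, V ⊆ U

/-- A space is metalindelöf if every open cover has a point-countable open refinement. -/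
def Metalindelof (X : Type u) [TopologicalSpace X] : Prop :=
  ∀ 𝒰 : Set (Set X), (∀ U ∈ 𝒰, IsOpen U) → ⋃₀ 𝒰 = Set.univ →
    HasPointCountableOpenRefinement 𝒰

/-- A closed mapping: a continuous surjection sending closed sets to closed sets. -/
structure ClosedMapping {X Y : Type u} [TopologicalSpace X] [TopologicalSpace Y]
    (f : X → Y) : Prop where
  continuous : Continuous f
  surjective : Function.Surjective f
  isClosedMap : IsClosedMap f

/-- Every open cover of `X` has a subcover of cardinality less than `κ`. -/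
def CoversHaveSubcoversBelow (κ : Cardinal.{u}) (X : Type u) [TopologicalSpace X] : Prop :=
  ∀ 𝒰 : Set (Set X), (∀ U ∈ 𝒰, IsOpen U) → ⋃₀ 𝒰 = Set.univ →
    ∃ 𝒱 : Set (Set X), 𝒱 ⊆ 𝒰 ∧ ⋃₀ 𝒱 = Set.univ ∧ #𝒱 < κ

variable {X Y : Type u} [TopologicalSpace X] [TopologicalSpace Y] {f : X → Y}

theorem ClosedMapping.toH (hf : ClosedMapping f) :
    Pool.Agent.Results.MP_e848aa_gt.PerfectImages.ClosedMapping f :=
  ⟨hf.continuous, hf.surjective, hf.isClosedMap⟩

theorem main (hX : Metalindelof X) (hf : ClosedMapping f) (𝒰 : Set (Set Y))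
    (hU : ∀ U ∈ 𝒰, IsOpen U) (hcov : ⋃₀ 𝒰 = Set.univ) (hcard : #𝒰 < ℵ_ Ordinal.omega0) :
    HasPointCountableOpenRefinement 𝒰 :=
  Pool.Agent.H865.CM.closed_image hf.toH hX 𝒰 hU hcov hcard

theorem below_image {κ : Cardinal.{u}} (hX : CoversHaveSubcoversBelow κ X)
    (hf : ClosedMapping f) : CoversHaveSubcoversBelow κ Y := by
  intro 𝒰 hU hcov
  obtain ⟨𝒱, h1, h2, h3⟩ := hX ((fun U => f ⁻¹' U) '' 𝒰)
    (by rintro _ ⟨U, hU', rfl⟩; exact (hU U hU').preimage hf.continuous)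
    (by
      refine eq_univ_of_forall fun x => ?_
      obtain ⟨U, hU', hx⟩ := mem_sUnion.1 (hcov ▸ mem_univ (f x) : f x ∈ ⋃₀ 𝒰)
      exact mem_sUnion.2 ⟨_, ⟨U, hU', rfl⟩, hx⟩)
  refine ⟨(fun V => f '' V) '' 𝒱, ?_, ?_, lt_of_le_of_lt mk_image_le h3⟩
  · rintro _ ⟨V, hV, rfl⟩
    obtain ⟨U, hU', rfl⟩ := h1 hV
    simp only
    rw [image_preimage_eq _ hf.surjective]
    exact hU'
  · refine eq_univ_of_forall fun y => ?_
    obtain ⟨x, rfl⟩ := hf.surjective y
    obtain ⟨V, hV, hx⟩ := mem_sUnion.1 (h2 ▸ mem_univ x : x ∈ ⋃₀ 𝒱)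
    exact mem_sUnion.2 ⟨f '' V, ⟨V, hV, rfl⟩, mem_image_of_mem _ hx⟩

theorem metalindelof_of_below (hX : Metalindelof X) (hf : ClosedMapping f)
    (hY : CoversHaveSubcoversBelow (ℵ_ Ordinal.omega0) Y) : Metalindelof Y := by
  intro 𝒰 hU hcov
  obtain ⟨𝒱, h1, h2, h3⟩ := hY 𝒰 hU hcov
  obtain ⟨𝒲, w1, w2, w3, w4⟩ := main hX hf 𝒱 (fun V hV => hU V (h1 hV)) h2 h3
  refine ⟨𝒲, w1, w2, w3, fun W hW => ?_⟩
  obtain ⟨V, hV, h⟩ := w4 W hW
  exact ⟨V, h1 hV, h⟩

theorem below_of_card {κ : Cardinal.{u}} (hX : #X < κ) : CoversHaveSubcoversBelow κ X := by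
  intro 𝒰 _ hcov
  have h : ∀ x, ∃ U ∈ 𝒰, x ∈ U := fun x => mem_sUnion.1 (hcov ▸ mem_univ x : x ∈ ⋃₀ 𝒰)
  choose g hg hg' using h
  refine ⟨range g, ?_, ?_, lt_of_le_of_lt mk_range_le hX⟩
  · rintro _ ⟨x, rfl⟩
    exact hg x
  · exact eq_univ_of_forall fun x => mem_sUnion.2 ⟨g x, ⟨x, rfl⟩, hg' x⟩

/-- **Theorem.** Let `X` be metalindelöf and `f : X → Y` a closed mapping. Then every open cover of
`Y` of cardinality less than `ℵ_ω` has a point-countable open refinement. Hence `Y` is metalindelöf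
if every open cover of `X`, or every open cover of `Y`, has a subcover of cardinality less than
`ℵ_ω`; in particular if `X` or `Y` has fewer than `ℵ_ω` points. -/
theorem result :
    (∀ (X Y : Type u) [TopologicalSpace X] [TopologicalSpace Y] (f : X → Y),
      Metalindelof X → ClosedMapping f →
      ∀ 𝒰 : Set (Set Y), (∀ U ∈ 𝒰, IsOpen U) → ⋃₀ 𝒰 = Set.univ → #𝒰 < ℵ_ Ordinal.omega0 →
        HasPointCountableOpenRefinement 𝒰) ∧
    (∀ (X Y : Type u) [TopologicalSpace X] [TopologicalSpace Y] (f : X → Y),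
      Metalindelof X → ClosedMapping f →
      (CoversHaveSubcoversBelow (ℵ_ Ordinal.omega0) X ∨
        CoversHaveSubcoversBelow (ℵ_ Ordinal.omega0) Y ∨
        #X < ℵ_ Ordinal.omega0 ∨ #Y < ℵ_ Ordinal.omega0) → Metalindelof Y) := by
  refine ⟨?_, ?_⟩
  · intro X Y _ _ f hX hf 𝒰 hU hcov hcard
    exact main hX hf 𝒰 hU hcov hcard
  · intro X Y _ _ f hX hf h
    refine metalindelof_of_below hX hf ?_
    rcases h with h | h | h | h
    · exact below_image h hf
    · exact h
    · exact below_image (below_of_card h) hf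
    · exact below_of_card h

end Pool.Agent.Results.MP_e848aa_gt.ClosedSmallCovers
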